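import Mathlib

/-!
Fat sets of finite sequences (MP_90cb67_lc).
-/

set_option autoImplicit false

namespace Pool.Agent.R499.PC

abbrev L := List ℕ

/-- `T` is fat among the sequences of length `ν` (the last coordinate is chosen first) -/
def Fat : ℕ → Set L → Prop
  | 0, T => [] ∈ T
  | ν + 1, T => {c : ℕ | Fat ν {a | a ++ [c] ∈ T}}.Infinite

lemma Fat.mono_on {ν : ℕ} : ∀ {T T' : Set L}, (∀ a, a.length = ν → a ∈ T → a ∈ T') →
    Fat ν T → Fat ν T' := by
  induction ν with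
  | zero => intro T T' h hT; exact h [] rfl hT
  | succ ν ih =>
    intro T T' h hT
    refine Set.Infinite.mono ?_ hT
    intro c hc
    refine ih ?_ hc
    intro a ha haT
    exact h _ (by simp [ha]) haT

lemma Fat.mono {ν : ℕ} {T T' : Set L} (h : T ⊆ T') (hT : Fat ν T) : Fat ν T' :=
  hT.mono_on fun _ _ ha => h ha

lemma Fat.univ (ν : ℕ) : Fat ν (Set.univ : Set L) := by
  induction ν with
  | zero => exact Set.mem_univ _
  | succ ν ih =>
    have : {c : ℕ | Fat ν {a | a ++ [c] ∈ (Set.univ : Set L)}} = Set.univ := by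
      ext c
      simp only [Set.mem_univ, iff_true]
      exact ih.mono fun a _ => Set.mem_univ _
    show {c : ℕ | Fat ν {a | a ++ [c] ∈ (Set.univ : Set L)}}.Infinite
    rw [this]
    exact Set.infinite_univ

lemma Fat.union {ν : ℕ} : ∀ {T T' : Set L}, Fat ν (T ∪ T') → Fat ν T ∨ Fat ν T' := by
  induction ν with
  | zero => intro T T' h; exact h
  | succ ν ih =>
    intro T T' h
    have h1 : {c : ℕ | Fat ν {a | a ++ [c] ∈ T ∪ T'}} ⊆
        {c : ℕ | Fat ν {a | a ++ [c] ∈ T}} ∪ {c : ℕ | Fat ν {a | a ++ [c] ∈ T'}} := by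
      intro c hc
      exact ih (T := {a | a ++ [c] ∈ T}) (T' := {a | a ++ [c] ∈ T'}) hc
    exact Set.infinite_union.1 (Set.Infinite.mono h1 h)

lemma Fat.exists_mem {ν : ℕ} : ∀ {T : Set L}, Fat ν T → ∃ a ∈ T, a.length = ν := by
  induction ν with
  | zero => intro T h; exact ⟨[], h, rfl⟩
  | succ ν ih =>
    intro T h
    obtain ⟨c, hc⟩ := h.nonempty
    obtain ⟨a, ha, hl⟩ := ih hc
    exact ⟨a ++ [c], ha, by simp [hl]⟩

/-- restriction to the first `k` coordinates -/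
lemma Fat.restrict {k : ℕ} (e : ℕ) : ∀ {T : Set L}, Fat (k + e) T →
    ∃ b : L, b.length = e ∧ Fat k {a | a ++ b ∈ T} := by
  induction e with
  | zero =>
    intro T h
    exact ⟨[], rfl, by simpa using h⟩
  | succ e ih =>
    intro T h
    obtain ⟨c, hc⟩ := Set.Infinite.nonempty (s := {c : ℕ | Fat (k + e) {a | a ++ [c] ∈ T}}) h
    obtain ⟨b, hb, hf⟩ := ih hc
    refine ⟨b ++ [c], by simp [hb], ?_⟩
    refine hf.mono ?_
    intro a ha
    simpa [List.append_assoc] using ha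

/-- the coordinate function `g_n` -/
def g (n : ℕ) (a : L) : ℕ := a.getD n 0

lemma g_append_lt {n : ℕ} {a b : L} (h : n < a.length) : g n (a ++ b) = g n a := by
  unfold g
  rw [List.getD_append _ _ _ _ h]

lemma Fat.unbounded {ν : ℕ} {n : ℕ} (hn : n < ν) (m : ℕ) : ∀ {T : Set L}, Fat ν T →
    ∃ a ∈ T, a.length = ν ∧ m < g n a := by
  induction ν with
  | zero => omega
  | succ ν ih =>
    intro T h
    rcases Nat.lt_succ_iff_lt_or_eq.1 hn with h1 | h1
    · obtain ⟨c, hc⟩ := Set.Infinite.nonempty (s := {c : ℕ | Fat ν {a | a ++ [c] ∈ T}}) h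
      obtain ⟨a, ha, hl, hm⟩ := ih h1 hc
      exact ⟨a ++ [c], ha, by simp [hl], by rw [g_append_lt (by omega)]; exact hm⟩
    · subst h1
      obtain ⟨c, hc, hmc⟩ := Set.Infinite.exists_gt (s := {c : ℕ | Fat n {a | a ++ [c] ∈ T}}) h m
      obtain ⟨a, ha, hl⟩ := Fat.exists_mem hc
      refine ⟨a ++ [c], ha, by simp [hl], ?_⟩
      unfold g
      rw [List.getD_append_right _ _ _ _ (by omega)]
      simpa [hl] using hmc

/-- positive sets -/
def Pos (X : Set L) : Prop := ∀ k, ∃ ν, k ≤ ν ∧ ∃ b : L, Fat ν {a | a ++ b ∈ X}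

lemma Pos.mono {X Y : Set L} (h : X ⊆ Y) (hX : Pos X) : Pos Y := by
  intro k
  obtain ⟨ν, hν, b, hb⟩ := hX k
  exact ⟨ν, hν, b, hb.mono fun a ha => h ha⟩

lemma Pos.univ : Pos (Set.univ : Set L) := fun k =>
  ⟨k, le_rfl, [], (Fat.univ k).mono fun _ _ => Set.mem_univ _⟩

lemma Pos.union {X Y : Set L} (h : Pos (X ∪ Y)) : Pos X ∨ Pos Y := by
  by_contra hcon
  rw [not_or] at hcon
  obtain ⟨h1, h2⟩ := hcon
  unfold Pos at h1 h2
  push Not at h1 h2
  obtain ⟨k1, hk1⟩ := h1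
  obtain ⟨k2, hk2⟩ := h2
  obtain ⟨ν, hν, b, hb⟩ := h (max k1 k2)
  rcases Fat.union (T := {a | a ++ b ∈ X}) (T' := {a | a ++ b ∈ Y}) hb with h3 | h3
  · exact hk1 ν (le_trans (le_max_left _ _) hν) b h3
  · exact hk2 ν (le_trans (le_max_right _ _) hν) b h3

lemma not_pos_empty : ¬ Pos (∅ : Set L) := by
  intro h
  obtain ⟨ν, _, b, hb⟩ := h 0
  obtain ⟨a, ha, _⟩ := hb.exists_mem
  exact ha

/-- no column is positive -/
lemma not_pos_column (j : ℕ) : ¬ Pos {a : L | a.length = j} := by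
  intro h
  obtain ⟨ν, hν, b, hb⟩ := h (j + 1)
  obtain ⟨a, ha, hl⟩ := hb.exists_mem
  simp only [Set.mem_ofPred_eq, List.length_append] at ha
  omega

/-- on a positive set `g n` is unbounded on some column -/
lemma Pos.g_unbounded {X : Set L} (hX : Pos X) (n : ℕ) :
    ∃ j, ∀ m, ∃ a ∈ X, a.length = j ∧ m < g n a := by
  obtain ⟨ν, hν, b, hb⟩ := hX (n + 1)
  refine ⟨ν + b.length, fun m => ?_⟩
  obtain ⟨a, ha, hl, hm⟩ := hb.unbounded (n := n) (by omega) m
  exact ⟨a ++ b, ha, by simp [hl], by rw [g_append_lt (by omega)]; exact hm⟩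

/-- the key step: if `A` is positive and `A ∩ {h ≥ g k}` is not, then `A` contains a fat set of
rank `k` on which `h` is bounded -/
lemma key {A : Set L} {h : L → ℕ} {k : ℕ} (hA : Pos A) (hn : ¬ Pos (A ∩ {a | g k a ≤ h a})) :
    ∃ (b : L) (m : ℕ), Fat k {a | a ++ b ∈ A ∧ h (a ++ b) ≤ m} := by
  have h1 : Pos (A ∩ {a | h a < g k a}) := by
    have : A = (A ∩ {a | g k a ≤ h a}) ∪ (A ∩ {a | h a < g k a}) := by
      ext a
      simp only [Set.mem_union, Set.mem_inter_iff, Set.mem_ofPred_eq]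
      constructor
      · intro ha
        rcases le_or_gt (g k a) (h a) with h2 | h2
        · exact Or.inl ⟨ha, h2⟩
        · exact Or.inr ⟨ha, h2⟩
      · rintro (h2 | h2) <;> exact h2.1
    rw [this] at hA
    exact (Pos.union hA).resolve_left hn
  obtain ⟨ν, hν, b0, hb0⟩ := h1 (k + 1)
  obtain ⟨e, rfl⟩ : ∃ e, ν = k + (e + 1) := ⟨ν - (k + 1), by omega⟩
  obtain ⟨b1, hb1, hf⟩ := Fat.restrict (k := k) (e + 1) hb0
  refine ⟨b1 ++ b0, g 0 b1, ?_⟩
  refine hf.mono_on ?_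
  intro a ha haT
  simp only [Set.mem_ofPred_eq, Set.mem_inter_iff, List.append_assoc] at haT ⊢
  refine ⟨haT.1, ?_⟩
  have h2 : g k (a ++ (b1 ++ b0)) = g 0 b1 := by
    unfold g
    rw [List.getD_append_right _ _ _ _ (by omega)]
    rw [List.getD_append _ _ _ _ (by omega)]
    simp [ha]
  rw [h2] at haT
  exact haT.2.le

end Pool.Agent.R499.PC
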