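import Pool.Agent.R499.PC.Step

set_option autoImplicit false

namespace Pool.Agent.R499.PC

open Cardinal

/-- the index set of the recursion -/
abbrev J : Type := (Cardinal.continuum.{0}).ord.ToType

section
variable (hD : Dom) (Zf : J → Set L) (hf : J → L → ℕ)

open Classical in
/-- one step of the recursion -/
noncomputable def pre (i : J) (rec : ∀ j : J, j < i → Set L × Set L) : Set L × Set L :=
  if h : FP {A | ∃ j, ∃ hj : j < i, A = (rec j hj).1 ∨ A = (rec j hj).2} ∧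
      #{A | ∃ j, ∃ hj : j < i, A = (rec j hj).1 ∨ A = (rec j hj).2} < Cardinal.continuum then
    (h.1.step h.2 hD (Zf i) (hf i)).choose
  else (Set.univ, Set.univ)

/-- the sets chosen at stage `i` -/
noncomputable def F (i : J) : Set L × Set L :=
  (wellFounded_lt (α := J)).fix (pre hD Zf hf) i

/-- the sets chosen before stage `i` -/
def Eb (i : J) : Set (Set L) :=
  {A | ∃ j, ∃ _ : j < i, A = (F hD Zf hf j).1 ∨ A = (F hD Zf hf j).2}

lemma F_eq (i : J) : F hD Zf hf i = pre hD Zf hf i (fun j _ => F hD Zf hf j) :=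
  WellFounded.fix_eq _ _ _

/-- the sets chosen until stage `i` -/
def E' (i : J) : Set (Set L) :=
  insert (F hD Zf hf i).2 (insert (F hD Zf hf i).1 (Eb hD Zf hf i))

lemma Eb_card (i : J) : #(Eb hD Zf hf i) < Cardinal.continuum := by
  have h1 : Eb hD Zf hf i ⊆ Set.range (fun j : Set.Iio i => (F hD Zf hf j).1) ∪
      Set.range (fun j : Set.Iio i => (F hD Zf hf j).2) := by
    rintro A ⟨j, hj, h | h⟩
    · exact Or.inl ⟨⟨j, hj⟩, h.symm⟩
    · exact Or.inr ⟨⟨j, hj⟩, h.symm⟩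
  refine lt_of_le_of_lt (Cardinal.mk_le_mk_of_subset h1) ?_
  refine lt_of_le_of_lt (Cardinal.mk_union_le _ _) ?_
  have h2 : #(Set.Iio i) < Cardinal.continuum := Cardinal.mk_Iio_toType_ord_lt i
  exact Cardinal.add_lt_of_lt Cardinal.aleph0_le_continuum
    (lt_of_le_of_lt Cardinal.mk_range_le h2) (lt_of_le_of_lt Cardinal.mk_range_le h2)

lemma Eb_subset {i j : J} (h : i < j) : E' hD Zf hf i ⊆ Eb hD Zf hf j := by
  intro A hA
  rcases hA with hA | hA | hA
  · exact ⟨i, h, Or.inr hA⟩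
  · exact ⟨i, h, Or.inl hA⟩
  · obtain ⟨k, hk, h1⟩ := hA
    exact ⟨k, hk.trans h, h1⟩

lemma E'_mono : Monotone (E' hD Zf hf) := by
  intro i j hij
  rcases hij.lt_or_eq with h | h
  · intro A hA
    exact Or.inr (Or.inr (Eb_subset hD Zf hf h hA))
  · rw [h]

lemma Eb_eq (i : J) : Eb hD Zf hf i = ⋃ j ∈ Set.Iio i, E' hD Zf hf j := by
  apply Set.Subset.antisymm
  · rintro A ⟨j, hj, h | h⟩
    · simp only [Set.mem_iUnion]
      exact ⟨j, hj, Or.inr (Or.inl h)⟩
    · simp only [Set.mem_iUnion]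
      exact ⟨j, hj, Or.inl h⟩
  · intro A hA
    simp only [Set.mem_iUnion] at hA
    obtain ⟨j, hj, h⟩ := hA
    exact Eb_subset hD Zf hf hj h

lemma F_spec (i : J) (h : FP (Eb hD Zf hf i)) :
    ((F hD Zf hf i).1 = Zf i ∨ (F hD Zf hf i).1 = (Zf i)ᶜ) ∧ Good (hf i) (F hD Zf hf i).2 ∧
      FP (E' hD Zf hf i) := by
  have hc := Eb_card hD Zf hf i
  have h1 : F hD Zf hf i = (h.step hc hD (Zf i) (hf i)).choose := by
    rw [F_eq]
    unfold pre
    exact dif_pos ⟨h, hc⟩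
  have h2 := (h.step hc hD (Zf i) (hf i)).choose_spec
  rw [← h1] at h2
  exact h2

lemma E'_fp (i : J) : FP (E' hD Zf hf i) := by
  induction i using WellFoundedLT.induction with
  | ind i ih =>
    have h : FP (Eb hD Zf hf i) := by
      rw [Eb_eq]
      exact FP.of_chain _ _ (E'_mono hD Zf hf) (fun j hj => ih j hj)
    exact (F_spec hD Zf hf i h).2.2

lemma Eb_fp (i : J) : FP (Eb hD Zf hf i) := by
  rw [Eb_eq]
  exact FP.of_chain _ _ (E'_mono hD Zf hf) (fun j _ => E'_fp hD Zf hf j)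

include hD in
lemma total : ∃ E : Set (Set L), FP E ∧ (∀ i, Zf i ∈ E ∨ (Zf i)ᶜ ∈ E) ∧
    ∀ i, ∃ B ∈ E, Good (hf i) B := by
  refine ⟨⋃ j ∈ (Set.univ : Set J), E' hD Zf hf j,
    FP.of_chain _ _ (E'_mono hD Zf hf) (fun j _ => E'_fp hD Zf hf j), ?_, ?_⟩
  · intro i
    have h1 := (F_spec hD Zf hf i (Eb_fp hD Zf hf i)).1
    have h2 : (F hD Zf hf i).1 ∈ ⋃ j ∈ (Set.univ : Set J), E' hD Zf hf j := by
      simp only [Set.mem_iUnion]
      exact ⟨i, Set.mem_univ _, Or.inr (Or.inl rfl)⟩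
    rcases h1 with h1 | h1
    · left; rw [← h1]; exact h2
    · right; rw [← h1]; exact h2
  · intro i
    refine ⟨(F hD Zf hf i).2, ?_, (F_spec hD Zf hf i (Eb_fp hD Zf hf i)).2.1⟩
    simp only [Set.mem_iUnion]
    exact ⟨i, Set.mem_univ _, Or.inl rfl⟩

end

lemma card_index : #(Set L × (L → ℕ)) = Cardinal.continuum := by
  have h1 : #L = ℵ₀ := Cardinal.mk_eq_aleph0 _
  rw [Cardinal.mk_prod, Cardinal.lift_id, Cardinal.lift_id, Cardinal.mk_set, h1,
    Cardinal.two_power_aleph0]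
  have h2 : #(L → ℕ) = Cardinal.continuum := by
    rw [← Cardinal.power_def, Cardinal.mk_nat, h1, Cardinal.aleph0_power_aleph0]
  rw [h2, Cardinal.continuum_mul_self]

/-- the ultrafilter -/
theorem exists_ultra (hD : Dom) : ∃ U : Ultrafilter L, (∀ Z ∈ U, Pos Z) ∧
    ∀ h : L → ℕ, (∃ n, {a | g n a ≤ h a} ∈ U) ∨ ∃ u : ℕ → ℕ, {a | h a ≤ u a.length} ∈ U := by
  have hJ : #(Set L × (L → ℕ)) ≤ #J := by
    rw [card_index, Cardinal.mk_toType, Cardinal.card_ord]
  obtain ⟨φ⟩ := Cardinal.le_def _ _ |>.1 hJ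
  set e : J → Set L × (L → ℕ) := Function.invFun φ with he
  have hsurj : Function.Surjective e := Function.invFun_surjective φ.injective
  obtain ⟨E, hE, hZ, hG⟩ := total hD (fun i => (e i).1) (fun i => (e i).2)
  have hmem : ∀ s ∈ Filter.generate E, Pos s := by
    intro s hs
    rw [Filter.mem_generate_iff] at hs
    obtain ⟨t, ht, hfin, hts⟩ := hs
    have := hE hfin.toFinset (by rw [hfin.coe_toFinset]; exact ht)
    rw [hfin.coe_toFinset] at this
    exact this.mono hts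
  have hZ' : ∀ Z : Set L, Z ∈ E ∨ Zᶜ ∈ E := by
    intro Z
    obtain ⟨i, hi⟩ := hsurj (Z, fun _ => 0)
    have := hZ i
    rw [hi] at this
    exact this
  have hsub : ∀ Z ∈ E, Z ∈ Filter.generate E := fun Z hZ => Filter.GenerateSets.basic hZ
  refine ⟨Ultrafilter.ofComplNotMemIff (Filter.generate E) ?_, ?_, ?_⟩
  · intro s
    constructor
    · intro h
      rcases hZ' s with h1 | h1
      · exact hsub _ h1
      · exact absurd (hsub _ h1) h
    · intro h h1
      have h2 := Filter.inter_mem h h1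
      rw [Set.inter_compl_self] at h2
      exact not_pos_empty (hmem _ h2)
  · intro Z hZ
    exact hmem Z hZ
  · intro h
    obtain ⟨i, hi⟩ := hsurj (∅, h)
    obtain ⟨B, hB, hg⟩ := hG i
    rw [hi] at hg
    rcases hg with ⟨n, rfl⟩ | ⟨u, rfl⟩
    · exact Or.inl ⟨n, hsub _ hB⟩
    · exact Or.inr ⟨u, hsub _ hB⟩

end Pool.Agent.R499.PC
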