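import Pool.Agent.R499.PC.Fat

set_option autoImplicit false

namespace Pool.Agent.R499.PC

open Cardinal

/-- all finite intersections of members of `E` are positive -/
def FP (E : Set (Set L)) : Prop := ∀ s : Finset (Set L), (s : Set (Set L)) ⊆ E →
  Pos (⋂₀ (s : Set (Set L)))

/-- families of fewer than continuum many functions are not dominating -/
def Dom : Prop := ∀ S : Set (ℕ → ℕ), #S < Cardinal.continuum →
  ∃ u : ℕ → ℕ, ∀ v ∈ S, ∀ N, ∃ k, N ≤ k ∧ v k < u k

lemma not_fp_insert {E : Set (Set L)} (Z : Set L) (h : ¬ FP (insert Z E)) :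
    ∃ s : Finset (Set L), (s : Set (Set L)) ⊆ E ∧ ¬ Pos (⋂₀ (s : Set (Set L)) ∩ Z) := by
  classical
  unfold FP at h
  push Not at h
  obtain ⟨s, hs, hn⟩ := h
  refine ⟨s.erase Z, ?_, ?_⟩
  · intro A hA
    rw [Finset.mem_coe, Finset.mem_erase] at hA
    exact (hs (Finset.mem_coe.2 hA.2)).resolve_left hA.1
  · intro hp
    apply hn
    refine hp.mono ?_
    intro a ha A hA
    by_cases hAZ : A = Z
    · rw [hAZ]; exact ha.2
    · exact ha.1 A (by rw [Finset.mem_coe, Finset.mem_erase]; exact ⟨hAZ, Finset.mem_coe.1 hA⟩)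

lemma FP.inter {E : Set (Set L)} (hE : FP E) (s t : Finset (Set L))
    (hs : (s : Set (Set L)) ⊆ E) (ht : (t : Set (Set L)) ⊆ E) :
    Pos (⋂₀ (s : Set (Set L)) ∩ ⋂₀ (t : Set (Set L))) := by
  classical
  have := hE (s ∪ t) (by rw [Finset.coe_union]; exact Set.union_subset hs ht)
  rwa [Finset.coe_union, Set.sInter_union] at this

lemma FP.decide {E : Set (Set L)} (hE : FP E) (Z : Set L) :
    FP (insert Z E) ∨ FP (insert Zᶜ E) := by
  by_contra hcon
  rw [not_or] at hcon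
  obtain ⟨s, hs, hs'⟩ := not_fp_insert Z hcon.1
  obtain ⟨t, ht, ht'⟩ := not_fp_insert Zᶜ hcon.2
  have h1 := hE.inter s t hs ht
  have h2 : ⋂₀ (s : Set (Set L)) ∩ ⋂₀ (t : Set (Set L)) ⊆
      (⋂₀ (s : Set (Set L)) ∩ Z) ∪ (⋂₀ (t : Set (Set L)) ∩ Zᶜ) := by
    intro a ha
    by_cases hz : a ∈ Z
    · exact Or.inl ⟨ha.1, hz⟩
    · exact Or.inr ⟨ha.2, hz⟩
  rcases Pos.union (h1.mono h2) with h3 | h3
  · exact hs' h3
  · exact ht' h3

lemma FP.fn {E : Set (Set L)} (hE : FP E) (hc : #E < Cardinal.continuum) (hD : Dom)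
    (h : L → ℕ) : (∃ n, FP (insert {a | g n a ≤ h a} E)) ∨
      ∃ u : ℕ → ℕ, FP (insert {a | h a ≤ u a.length} E) := by
  classical
  by_cases hcase : ∃ n, FP (insert {a | g n a ≤ h a} E)
  · exact Or.inl hcase
  right
  push Not at hcase
  choose sn hsn hsn' using fun n => not_fp_insert _ (hcase n)
  have hex : ∀ (s : Finset E) (k : ℕ), ∃ m : ℕ, ∃ b : L,
      Fat k {a | (a ++ b ∈ ⋂₀ ((s.map (Function.Embedding.subtype _) : Finset (Set L)) :
        Set (Set L))) ∧ h (a ++ b) ≤ m} := by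
    intro s k
    have hsE : ((s.map (Function.Embedding.subtype _) : Finset (Set L)) : Set (Set L)) ⊆ E := by
      intro A hA
      rw [Finset.mem_coe, Finset.mem_map] at hA
      obtain ⟨B, _, rfl⟩ := hA
      exact B.2
    have h1 := hE.inter _ _ hsE (hsn k)
    obtain ⟨b, m, hf⟩ := key (h := h) (k := k) h1 (by
      intro hp
      apply hsn' k
      refine hp.mono ?_
      intro a ha
      exact ⟨ha.1.2, ha.2⟩)
    exact ⟨m, b, hf.mono fun a ha => ⟨ha.1.1, ha.2⟩⟩
  choose v b hv using hex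
  have hcard : #(Set.range v) < Cardinal.continuum := by
    refine lt_of_le_of_lt Cardinal.mk_range_le ?_
    rcases finite_or_infinite E with hf | hi
    · have : Finite (Finset E) := inferInstance
      exact (Cardinal.lt_aleph0_of_finite _).trans Cardinal.aleph0_lt_continuum
    · rw [Cardinal.mk_finset_of_infinite]
      exact hc
  obtain ⟨u, hu⟩ := hD _ hcard
  refine ⟨fun j => (Finset.range (j + 1)).sup u, ?_⟩
  by_contra hcon
  obtain ⟨s, hs, hs'⟩ := not_fp_insert _ hcon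
  apply hs'
  set s' : Finset E := s.subtype (· ∈ E) with hs'def
  have hmap : ((s'.map (Function.Embedding.subtype _) : Finset (Set L)) : Set (Set L)) =
      (s : Set (Set L)) := by
    ext A
    rw [Finset.mem_coe, Finset.mem_coe, Finset.mem_map]
    constructor
    · rintro ⟨B, hB, rfl⟩
      rw [hs'def, Finset.mem_subtype] at hB
      exact hB
    · intro hA
      exact ⟨⟨A, hs (Finset.mem_coe.2 hA)⟩, by rw [hs'def, Finset.mem_subtype]; exact hA, rfl⟩
  intro k0
  obtain ⟨k, hk, hlt⟩ := hu (v s') ⟨s', rfl⟩ k0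
  refine ⟨k, hk, b s' k, ?_⟩
  refine (hv s' k).mono_on ?_
  intro a ha haT
  rw [Set.mem_ofPred_eq, hmap] at haT
  refine ⟨haT.1, ?_⟩
  rw [Set.mem_ofPred_eq]
  refine haT.2.trans (hlt.le.trans ?_)
  apply Finset.le_sup (f := u)
  rw [Finset.mem_range, List.length_append]
  omega

/-- `B` settles the function `h` -/
def Good (h : L → ℕ) (B : Set L) : Prop :=
  (∃ n, B = {a | g n a ≤ h a}) ∨ ∃ u : ℕ → ℕ, B = {a | h a ≤ u a.length}

lemma FP.step {E : Set (Set L)} (hE : FP E) (hc : #E < Cardinal.continuum) (hD : Dom)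
    (Z : Set L) (h : L → ℕ) : ∃ p : Set L × Set L, (p.1 = Z ∨ p.1 = Zᶜ) ∧ Good h p.2 ∧
      FP (insert p.2 (insert p.1 E)) := by
  have h1 : ∃ A, (A = Z ∨ A = Zᶜ) ∧ FP (insert A E) := by
    rcases hE.decide Z with h2 | h2
    · exact ⟨Z, Or.inl rfl, h2⟩
    · exact ⟨Zᶜ, Or.inr rfl, h2⟩
  obtain ⟨A, hA, hAE⟩ := h1
  have hc' : #(insert A E : Set (Set L)) < Cardinal.continuum := by
    refine lt_of_le_of_lt Cardinal.mk_insert_le ?_
    exact Cardinal.add_lt_of_lt Cardinal.aleph0_le_continuum hc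
      (Cardinal.one_lt_aleph0.trans Cardinal.aleph0_lt_continuum)
  rcases hAE.fn hc' hD h with ⟨n, hn⟩ | ⟨u, hu⟩
  · exact ⟨(A, _), hA, Or.inl ⟨n, rfl⟩, hn⟩
  · exact ⟨(A, _), hA, Or.inr ⟨u, rfl⟩, hu⟩

lemma FP.of_chain {J : Type} [LinearOrder J] (S : Set J) (E' : J → Set (Set L))
    (hm : Monotone E') (hf : ∀ j ∈ S, FP (E' j)) : FP (⋃ j ∈ S, E' j) := by
  classical
  intro s
  have h : ∀ s : Finset (Set L), (s : Set (Set L)) ⊆ (⋃ j ∈ S, E' j) →
      s = ∅ ∨ ∃ j ∈ S, (s : Set (Set L)) ⊆ E' j := by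
    intro s
    induction s using Finset.induction_on with
    | empty => intro _; exact Or.inl rfl
    | insert A s hA ih =>
      intro hs
      right
      rw [Finset.coe_insert, Set.insert_subset_iff] at hs
      obtain ⟨h1, h2⟩ := hs
      simp only [Set.mem_iUnion] at h1
      obtain ⟨j, hj, hAj⟩ := h1
      rcases ih h2 with h3 | ⟨i, hi, h3⟩
      · subst h3
        exact ⟨j, hj, by simpa using hAj⟩
      · rcases le_total i j with hij | hij
        · exact ⟨j, hj, by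
            rw [Finset.coe_insert, Set.insert_subset_iff]; exact ⟨hAj, h3.trans (hm hij)⟩⟩
        · exact ⟨i, hi, by
            rw [Finset.coe_insert, Set.insert_subset_iff]; exact ⟨hm hij hAj, h3⟩⟩
  intro hs
  rcases h s hs with h3 | ⟨j, hj, h3⟩
  · subst h3
    simpa using Pos.univ
  · exact hf j hj s h3

end Pool.Agent.R499.PC
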